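import Mathlib

set_option autoImplicit false
open MeasureTheory Set
open scoped ENNReal Real

namespace Pool.Agent.N239.Spec

/-- The support of the first marginal. -/
def A : Set ℝ := Ico 0 1 ∪ Ico 2 3

/-- The first marginal: half of Lebesgue measure on `[0,1) ∪ [2,3)`. -/
noncomputable def nu : Measure ℝ := (2:ℝ≥0∞)⁻¹ • (volume.restrict A)

/-- The inverse branch map of the one dimensional IFS. -/
noncomputable def S (x : ℝ) : ℝ :=
  Int.fract (4 * Int.fract x) + (if Int.fract x < 1/2 then 0 else 2)

/-- The second coordinate as a function of the first. -/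
noncomputable def g (x : ℝ) : ℝ := -∑' k : ℕ, (1/3:ℝ)^(k+1) * (S^[k] x)

theorem S_nonneg (x : ℝ) : 0 ≤ S x := by
  unfold S
  have := Int.fract_nonneg (4 * Int.fract x)
  split_ifs <;> linarith

theorem S_lt (x : ℝ) : S x < 3 := by
  unfold S
  have := Int.fract_lt_one (4 * Int.fract x)
  split_ifs <;> linarith

theorem iter_bound (x : ℝ) (k : ℕ) : |S^[k] x| ≤ |x| + 3 := by
  cases k with
  | zero => simp
  | succ k =>
    rw [Function.iterate_succ_apply']
    rw [abs_of_nonneg (S_nonneg _)]
    have := S_lt (S^[k] x)
    have := abs_nonneg x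
    linarith

theorem summ (x : ℝ) : Summable (fun k : ℕ => (1/3:ℝ)^(k+1) * (S^[k] x)) := by
  have h1 : Summable (fun k : ℕ => (1/3:ℝ)^(k+1) * (|x| + 3)) := by
    have := (summable_geometric_of_lt_one (r := (1/3:ℝ)) (by norm_num) (by norm_num))
    have h2 := (this.mul_left (1/3:ℝ)).mul_right (|x| + 3)
    refine h2.congr (fun k => ?_)
    rw [pow_succ]; ring
  refine Summable.of_norm_bounded h1 (fun k => ?_)
  rw [norm_mul, Real.norm_eq_abs, Real.norm_eq_abs, abs_of_pos (by positivity)]
  exact mul_le_mul_of_nonneg_left (iter_bound x k) (by positivity)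

theorem g_eq (x : ℝ) : g x = (g (S x) - x) / 3 := by
  have h := (summ x).tsum_eq_zero_add
  have h2 : (∑' k : ℕ, (1/3:ℝ)^(k+1+1) * (S^[k+1] x)) = (1/3) * ∑' k : ℕ, (1/3:ℝ)^(k+1) * (S^[k] (S x)) := by
    rw [← tsum_mul_left]
    refine tsum_congr (fun k => ?_)
    rw [Function.iterate_succ_apply]
    ring
  unfold g
  rw [h, h2]
  simp
  ring

theorem measurable_S : Measurable S := by
  unfold S
  refine Measurable.add ?_ ?_
  · exact measurable_fract.comp (measurable_const.mul measurable_fract)
  · refine Measurable.ite ?_ measurable_const measurable_const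
    exact measurableSet_lt measurable_fract measurable_const

theorem measurable_g : Measurable g := by
  have h : ∀ n : ℕ, Measurable (fun x => -∑ k ∈ Finset.range n, (1/3:ℝ)^(k+1) * (S^[k] x)) := by
    intro n
    refine (Finset.measurable_sum _ (fun k _ => ?_)).neg
    exact measurable_const.mul (measurable_S.iterate k)
  refine measurable_of_tendsto_metrizable h ?_
  rw [tendsto_pi_nhds]
  intro x
  exact ((summ x).hasSum.tendsto_sum_nat).neg

/-- The graph map. -/
noncomputable def G (x : ℝ) : Fin 2 → ℝ := ![x, g x]

theorem measurable_G : Measurable G := by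
  rw [measurable_pi_iff]
  intro i
  fin_cases i
  · exact measurable_id
  · exact measurable_g

/-- The measure on the plane. -/
noncomputable def mu : Measure (Fin 2 → ℝ) := nu.map G

theorem measurableSet_A : MeasurableSet A := measurableSet_Ico.union measurableSet_Ico

theorem volume_A : volume A = 2 := by
  unfold A
  rw [measure_union _ measurableSet_Ico, Real.volume_Ico, Real.volume_Ico]
  · norm_num
  · rw [Set.disjoint_left]
    intro x hx hx'
    have := hx.2
    have := hx'.1
    linarith

instance : IsProbabilityMeasure nu := by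
  constructor
  unfold nu
  rw [Measure.smul_apply, Measure.restrict_apply_univ, volume_A, smul_eq_mul]
  exact ENNReal.inv_mul_cancel (by norm_num) (by norm_num)

instance : IsProbabilityMeasure mu :=
  Measure.isProbabilityMeasure_map measurable_G.aemeasurable

theorem ae_mem_A : ∀ᵐ x ∂nu, x ∈ A := by
  unfold nu
  refine Measure.ae_smul_measure ?_ _
  exact ae_restrict_mem measurableSet_A

end Pool.Agent.N239.Spec
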