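import Pool.Agent.N239.Spec.Four

set_option autoImplicit false
open MeasureTheory Set
open scoped ENNReal Real

namespace Pool.Agent.N239.Spec

/-- the character `exp(-2 π i t x)` -/
noncomputable def ch (t x : ℝ) : ℂ := Complex.exp (-(2 * π * Complex.I * ((t * x : ℝ) : ℂ)))

theorem norm_ch (t x : ℝ) : ‖ch t x‖ = 1 := by
  unfold ch
  have : (-(2 * π * Complex.I * ((t * x : ℝ) : ℂ))) = ((-(2 * π * (t * x)) : ℝ) : ℂ) * Complex.I := by
    push_cast; ring
  rw [this, Complex.norm_exp_ofReal_mul_I]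

theorem continuous_ch (t : ℝ) : Continuous (ch t) := by
  unfold ch
  fun_prop

theorem ch_add (s t x : ℝ) : ch (s + t) x = ch s x * ch t x := by
  unfold ch
  rw [← Complex.exp_add]
  congr 1
  push_cast; ring

theorem ch_add_right (t x y : ℝ) : ch t (x + y) = ch t x * ch t y := by
  unfold ch
  rw [← Complex.exp_add]
  congr 1
  push_cast; ring

theorem ch_int_two (n : ℤ) : ch n 2 = 1 := by
  unfold ch
  rw [Complex.exp_eq_one_iff]
  exact ⟨-(2 * n), by push_cast; ring⟩

theorem ch_quarter_two : ch (1/4) 2 = -1 := by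
  unfold ch
  have : (-(2 * π * Complex.I * ((1/4 * 2 : ℝ) : ℂ))) = -(π * Complex.I) := by
    push_cast; ring
  rw [this, Complex.exp_neg, Complex.exp_pi_mul_I]
  norm_num

theorem memLp_mul_ch (m : Measure ℝ) (t : ℝ) (F : ℝ → ℂ) (hF : MemLp F 2 m) :
    MemLp (fun x => F x * ch t x) 2 m := by
  refine (memLp_congr_norm ?_ hF.1 ?_).2 hF
  · exact hF.1.mul (continuous_ch t).aestronglyMeasurable
  · refine Filter.Eventually.of_forall (fun x => ?_)
    show ‖F x * ch t x‖ = ‖F x‖
    rw [norm_mul, norm_ch, mul_one]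

instance : IsFiniteMeasure ((volume : Measure ℝ).restrict (Ioc (0:ℝ) 1)) := inferInstance

theorem complete_line (F : ℝ → ℂ) (hF : MemLp F 2 nu)
    (h0 : ∀ n : ℤ, ∫ x, F x * ch n x ∂nu = 0)
    (h1 : ∀ n : ℤ, ∫ x, F x * ch (n + 1/4) x ∂nu = 0) : F =ᵐ[nu] 0 := by
  obtain ⟨m0, m2⟩ := memLp_parts F hF
  have i0 : ∀ t : ℝ, IntervalIntegrable (fun x => F x * ch t x) volume 0 1 := by
    intro t
    rw [intervalIntegrable_iff_integrableOn_Ioc_of_le zero_le_one]
    exact (memLp_mul_ch _ t F m0).integrable (by norm_num)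
  have i2 : ∀ t : ℝ, IntervalIntegrable (fun x => F (x + 2) * ch t x) volume 0 1 := by
    intro t
    rw [intervalIntegrable_iff_integrableOn_Ioc_of_le zero_le_one]
    exact (memLp_mul_ch _ t _ m2).integrable (by norm_num)
  have A0 : ∀ n : ℤ, ∫ x in (0:ℝ)..1, (F x + F (x + 2)) * ch n x = 0 := by
    intro n
    have h := h0 n
    rw [integral_nu _ ((memLp_mul_ch nu n F hF).integrable (by norm_num))] at h
    have h' : ∀ x : ℝ, F (x + 2) * ch n (x + 2) = F (x + 2) * ch n x := by
      intro x; rw [ch_add_right, ch_int_two, mul_one]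
    simp only [h'] at h
    rw [← intervalIntegral.integral_add (i0 n) (i2 n)] at h
    have h'' := (mul_eq_zero.1 h).resolve_left (by norm_num)
    rw [← h'']
    refine intervalIntegral.integral_congr (fun x _ => ?_)
    ring
  have A1 : ∀ n : ℤ, ∫ x in (0:ℝ)..1, ((F x - F (x + 2)) * ch (1/4) x) * ch n x = 0 := by
    intro n
    have h := h1 n
    rw [integral_nu _ ((memLp_mul_ch nu _ F hF).integrable (by norm_num))] at h
    have h' : ∀ x : ℝ, F (x + 2) * ch (n + 1/4) (x + 2) = -(F (x + 2) * ch (n + 1/4) x) := by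
      intro x; rw [ch_add_right, ch_add n (1/4) 2, ch_int_two, ch_quarter_two]; ring
    simp only [h'] at h
    rw [intervalIntegral.integral_neg, ← sub_eq_add_neg, ← intervalIntegral.integral_sub (i0 _) (i2 _)] at h
    have h'' := (mul_eq_zero.1 h).resolve_left (by norm_num)
    rw [← h'']
    refine intervalIntegral.integral_congr (fun x _ => ?_)
    show ((F x - F (x + 2)) * ch (1/4) x) * ch n x = F x * ch (n + 1/4) x - F (x + 2) * ch (n + 1/4) x
    rw [ch_add]; ring
  have B0 := fourier_unique (fun x => F x + F (x + 2)) (m0.add m2) A0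
  have B1 := fourier_unique (fun x => (F x - F (x + 2)) * ch (1/4) x)
    (memLp_mul_ch _ (1/4) (fun x => F x - F (x + 2)) (m0.sub m2)) A1
  refine ae_nu_of F ?_ ?_
  · filter_upwards [B0, B1] with x hx hy
    simp only [Pi.zero_apply] at hx hy ⊢
    have hc : ch (1/4) x ≠ 0 := by
      intro hc
      have := norm_ch (1/4) x
      rw [hc] at this
      simp at this
    have hz := (mul_eq_zero.1 hy).resolve_right hc
    have : (2:ℂ) * F x = 0 := by linear_combination hx + hz
    exact (mul_eq_zero.1 this).resolve_left (by norm_num)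
  · filter_upwards [B0, B1] with x hx hy
    simp only [Pi.zero_apply] at hx hy ⊢
    have hc : ch (1/4) x ≠ 0 := by
      intro hc
      have := norm_ch (1/4) x
      rw [hc] at this
      simp at this
    have hz := (mul_eq_zero.1 hy).resolve_right hc
    have : (2:ℂ) * F (x + 2) = 0 := by linear_combination hx - hz
    exact (mul_eq_zero.1 this).resolve_left (by norm_num)

/-- The spectrum. -/
def Lam : Set (Fin 2 → ℝ) := {l | ∃ n : ℤ, ∃ e : ℝ, (e = 0 ∨ e = 1/4) ∧ l = ![n + e, 0]}

theorem complete (f : (Fin 2 → ℝ) → ℂ) (hf : MemLp f 2 mu)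
    (h : ∀ l ∈ Lam, ∫ x, f x * Complex.exp (-(2 * π * Complex.I * ((∑ i, l i * x i : ℝ) : ℂ))) ∂mu = 0) :
    f =ᵐ[mu] 0 := by
  have hF : MemLp (f ∘ G) 2 nu := (memLp_map_measure_iff hf.1 measurable_G.aemeasurable).1 hf
  have key : ∀ t : ℝ, ∫ x, f x * Complex.exp (-(2 * π * Complex.I * ((∑ i, (![t, 0] : Fin 2 → ℝ) i * x i : ℝ) : ℂ))) ∂mu
      = ∫ x, (f ∘ G) x * ch t x ∂nu := by
    intro t
    unfold mu
    rw [integral_map measurable_G.aemeasurable]
    · refine integral_congr_ae (Filter.Eventually.of_forall (fun x => ?_))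
      simp [G, ch]
    · refine hf.1.mul ?_
      exact Continuous.aestronglyMeasurable (by fun_prop)
  have h0 : ∀ n : ℤ, ∫ x, (f ∘ G) x * ch n x ∂nu = 0 := by
    intro n
    rw [← key]
    exact h _ ⟨n, 0, Or.inl rfl, by simp⟩
  have h1 : ∀ n : ℤ, ∫ x, (f ∘ G) x * ch (n + 1/4) x ∂nu = 0 := by
    intro n
    rw [← key]
    exact h _ ⟨n, 1/4, Or.inr rfl, by simp⟩
  have := complete_line (f ∘ G) hF h0 h1
  unfold mu
  have h5 : ∀ᵐ y ∂(nu.map G), f y = 0 := by
    have hs : NullMeasurableSet {y | f y = 0} (nu.map G) :=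
      hf.1.aemeasurable.nullMeasurableSet_preimage (measurableSet_singleton 0)
    rw [ae_iff]
    have e1 : {a | ¬ f a = 0} = {y | f y = 0}ᶜ := rfl
    rw [e1, Measure.map_apply₀ measurable_G.aemeasurable hs.compl]
    exact this
  exact h5

end Pool.Agent.N239.Spec
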