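import Mathlib

set_option autoImplicit false
open MeasureTheory Matrix
open scoped ENNReal Real

namespace Pool.Agent.N239.SpecDefs

/-- All complex eigenvalues of the integer matrix `R` have modulus larger than one. -/
def Expanding {d : ℕ} (R : Matrix (Fin d) (Fin d) ℤ) : Prop :=
  ∀ z : ℂ, (R.map (Int.cast : ℤ → ℂ)).charpoly.IsRoot z → 1 < ‖z‖

/-- The elements of `B` are pairwise incongruent modulo `R ℤ^d`. -/
def SimpleDigits {d : ℕ} (R : Matrix (Fin d) (Fin d) ℤ) (B : Finset (Fin d → ℤ)) : Prop :=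
  ∀ b ∈ B, ∀ b' ∈ B, b ≠ b' → ¬ ∃ v : Fin d → ℤ, R *ᵥ v = b - b'

/-- `ℤ[R,B] = ℤ^d`. -/
def Generating {d : ℕ} (R : Matrix (Fin d) (Fin d) ℤ) (B : Finset (Fin d → ℤ)) : Prop :=
  AddSubgroup.closure {v : Fin d → ℤ | ∃ k : ℕ, ∃ b ∈ B, v = (R ^ k) *ᵥ b} = ⊤

/-- The affine map `x ↦ R⁻¹ (x + b)`. -/
noncomputable def ifs {d : ℕ} (R : Matrix (Fin d) (Fin d) ℤ) (b : Fin d → ℤ) (x : Fin d → ℝ) :
    Fin d → ℝ :=
  (R.map (Int.cast : ℤ → ℝ))⁻¹ *ᵥ (x + fun i => (b i : ℝ))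

/-- `μ` is the equal weight self-affine probability measure of `(R,B)`. -/
def IsSelfAffineMeasure {d : ℕ} (R : Matrix (Fin d) (Fin d) ℤ) (B : Finset (Fin d → ℤ))
    (μ : Measure (Fin d → ℝ)) : Prop :=
  IsProbabilityMeasure μ ∧ μ = ((B.card : ℝ≥0∞)⁻¹) • ∑ b ∈ B, μ.map (ifs R b)

/-- `T` is the attractor of `(R,B)`: nonempty, compact and `T = ⋃ (x ↦ R⁻¹(x+b)) T`. -/
def IsAttractor {d : ℕ} (R : Matrix (Fin d) (Fin d) ℤ) (B : Finset (Fin d → ℤ))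
    (T : Set (Fin d → ℝ)) : Prop :=
  T.Nonempty ∧ IsCompact T ∧ T = ⋃ b ∈ B, ifs R b '' T

/-- The pieces of the attractor are pairwise disjoint up to `μ`-null sets. -/
def NoOverlap {d : ℕ} (R : Matrix (Fin d) (Fin d) ℤ) (B : Finset (Fin d → ℤ))
    (μ : Measure (Fin d → ℝ)) (T : Set (Fin d → ℝ)) : Prop :=
  ∀ b ∈ B, ∀ b' ∈ B, b ≠ b' → μ (ifs R b '' T ∩ ifs R b' '' T) = 0

/-- Some countable family of exponentials is an orthonormal (Hilbert) basis of `L²(μ)`. -/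
def IsSpectral {d : ℕ} (μ : Measure (Fin d → ℝ)) : Prop :=
  ∃ Λ : Set (Fin d → ℝ), Λ.Countable ∧ ∃ e : HilbertBasis Λ ℂ (Lp ℂ 2 μ),
    ∀ l : Λ, (e l : (Fin d → ℝ) → ℂ) =ᵐ[μ]
      fun x => Complex.exp (2 * π * Complex.I * ((∑ i, (l : Fin d → ℝ) i * x i : ℝ) : ℂ))

/-- The matrix `N^{-1/2} (exp (2 π i ⟨R⁻¹ b, l⟩))` with rows indexed by `L` and columns by `B`. -/
noncomputable def hadamardMatrix {d : ℕ} (R : Matrix (Fin d) (Fin d) ℤ) (B L : Finset (Fin d → ℤ)) :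
    Matrix L B ℂ :=
  fun l b => ((1 / Real.sqrt (B.card : ℝ) : ℝ) : ℂ) * Complex.exp (2 * π * Complex.I *
    ((∑ i, ((R.map (Int.cast : ℤ → ℝ))⁻¹ *ᵥ (fun j => ((b : Fin d → ℤ) j : ℝ))) i *
      ((l : Fin d → ℤ) i : ℝ) : ℝ) : ℂ))

/-- `(R,B,L)` is a Hadamard triple: `#L = #B` and the matrix above is unitary. -/
def IsHadamardTriple {d : ℕ} (R : Matrix (Fin d) (Fin d) ℤ) (B L : Finset (Fin d → ℤ)) : Prop :=
  L.card = B.card ∧ hadamardMatrix R B L * (hadamardMatrix R B L)ᴴ = 1 ∧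
    (hadamardMatrix R B L)ᴴ * hadamardMatrix R B L = 1

end Pool.Agent.N239.SpecDefs
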