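import Pool.Agent.N239.Spec.Base

set_option autoImplicit false
open MeasureTheory Set
open scoped ENNReal Real

namespace Pool.Agent.N239.Spec

theorem fourier_unique (h : ℝ → ℂ) (hL : MemLp h 2 (volume.restrict (Ioc (0:ℝ) 1)))
    (h0 : ∀ n : ℤ, ∫ x in (0:ℝ)..1, h x * Complex.exp (-(2 * π * Complex.I * ((n * x : ℝ) : ℂ))) = 0) :
    h =ᵐ[volume.restrict (Ioc (0:ℝ) 1)] 0 := by
  have h1 := hasSum_sq_fourierCoeffOn (zero_lt_one : (0:ℝ) < 1) hL
  have h2 : ∀ n : ℤ, fourierCoeffOn (zero_lt_one : (0:ℝ) < 1) h n = 0 := by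
    intro n
    rw [fourierCoeffOn_eq_integral]
    have : ∫ x in (0:ℝ)..1, (fourier (-n)) (x : AddCircle (1 - (0:ℝ))) • h x = 0 := by
      rw [← h0 n]
      refine intervalIntegral.integral_congr (fun x _ => ?_)
      simp only [fourier_coe_apply, smul_eq_mul]
      rw [mul_comm]
      congr 2
      push_cast
      simp
      ring
    rw [this]
    simp
  simp only [h2, norm_zero, ne_eq, OfNat.ofNat_ne_zero, not_false_eq_true, zero_pow] at h1
  have h3 := h1.unique hasSum_zero
  have h4 : ∫ x in (0:ℝ)..1, ‖h x‖ ^ 2 = 0 := by simpa using h3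
  rw [intervalIntegral.integral_of_le zero_le_one] at h4
  have hint : Integrable (fun x => ‖h x‖ ^ 2) (volume.restrict (Ioc (0:ℝ) 1)) := hL.norm.integrable_sq
  rw [integral_eq_zero_iff_of_nonneg (fun x => by positivity) hint] at h4
  filter_upwards [h4] with x hx
  simpa using hx

/-- integration against nu -/
theorem restrict_shift : (volume.restrict (Ico (2:ℝ) 3)) = (volume.restrict (Ico (0:ℝ) 1)).map (fun x => x + 2) := by
  have hpre : (fun x : ℝ => x + 2) ⁻¹' (Ico 2 3) = Ico 0 1 := by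
    ext x
    simp only [mem_preimage, mem_Ico]
    constructor
    · rintro ⟨a, b⟩; constructor <;> linarith
    · rintro ⟨a, b⟩; constructor <;> linarith
  have := Measure.restrict_map (μ := (volume : Measure ℝ)) (f := fun x : ℝ => x + 2) (by fun_prop)
    (measurableSet_Ico (a := (2:ℝ)) (b := 3))
  rw [hpre, map_add_right_eq_self] at this
  exact this

theorem restrict_A' : volume.restrict A = volume.restrict (Ico (0:ℝ) 1) + volume.restrict (Ico (2:ℝ) 3) := by
  unfold A
  rw [Measure.restrict_union _ measurableSet_Ico]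
  rw [Set.disjoint_left]
  intro x hx hx'
  have := hx.2
  have := hx'.1
  linarith

theorem nu_eq : nu = (2:ℝ≥0∞)⁻¹ • (volume.restrict (Ioc (0:ℝ) 1) + (volume.restrict (Ioc (0:ℝ) 1)).map (fun x => x + 2)) := by
  unfold nu
  rw [restrict_A', restrict_shift, Measure.restrict_congr_set Ico_ae_eq_Ioc]

theorem emb2 : MeasurableEmbedding (fun x : ℝ => x + 2) := (Homeomorph.addRight (2:ℝ)).measurableEmbedding

theorem memLp_parts (F : ℝ → ℂ) (hF : MemLp F 2 nu) :
    MemLp F 2 (volume.restrict (Ioc (0:ℝ) 1)) ∧ MemLp (fun x => F (x + 2)) 2 (volume.restrict (Ioc (0:ℝ) 1)) := by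
  rw [nu_eq] at hF
  have h2 : MemLp F 2 (volume.restrict (Ioc (0:ℝ) 1) + (volume.restrict (Ioc (0:ℝ) 1)).map (fun x => x + 2)) := by
    have := hF.smul_measure (c := (2:ℝ≥0∞)) (by norm_num)
    rwa [smul_smul, ENNReal.mul_inv_cancel (by norm_num) (by norm_num), one_smul] at this
  refine ⟨h2.mono_measure (Measure.le_add_right le_rfl), ?_⟩
  have h3 : MemLp F 2 ((volume.restrict (Ioc (0:ℝ) 1)).map (fun x => x + 2)) :=
    h2.mono_measure (Measure.le_add_left le_rfl)
  exact (emb2.memLp_map_measure_iff).1 h3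

theorem integral_nu (F : ℝ → ℂ) (hF : Integrable F nu) :
    ∫ x, F x ∂nu = (1/2:ℂ) * ((∫ x in (0:ℝ)..1, F x) + ∫ x in (0:ℝ)..1, F (x + 2)) := by
  have h2 : Integrable F (volume.restrict (Ioc (0:ℝ) 1) + (volume.restrict (Ioc (0:ℝ) 1)).map (fun x => x + 2)) := by
    rw [nu_eq] at hF
    have := hF.smul_measure (c := (2:ℝ≥0∞)) (by norm_num)
    rwa [smul_smul, ENNReal.mul_inv_cancel (by norm_num) (by norm_num), one_smul] at this
  rw [nu_eq, integral_smul_measure, integral_add_measure (h2.mono_measure (Measure.le_add_right le_rfl))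
    (h2.mono_measure (Measure.le_add_left le_rfl)), emb2.integral_map,
    intervalIntegral.integral_of_le zero_le_one, intervalIntegral.integral_of_le zero_le_one]
  simp
  ring

theorem ae_nu_of (F : ℝ → ℂ) (h1 : F =ᵐ[volume.restrict (Ioc (0:ℝ) 1)] 0)
    (h2 : (fun x => F (x + 2)) =ᵐ[volume.restrict (Ioc (0:ℝ) 1)] 0) : F =ᵐ[nu] 0 := by
  rw [nu_eq]
  refine Measure.ae_smul_measure ?_ _
  exact ae_add_measure_iff.2 ⟨h1, emb2.ae_map_iff.2 h2⟩

end Pool.Agent.N239.Spec
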