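import Pool.Agent.N239.Spec.Orth
import Pool.Agent.N239.Spec.Defs

set_option autoImplicit false
open MeasureTheory Set Matrix
open scoped ENNReal Real

namespace Pool.Agent.N239.Spec
open Pool.Agent.N239.SpecDefs

/-! ### Hilbert basis -/

noncomputable def ex (l : Fin 2 → ℝ) (x : Fin 2 → ℝ) : ℂ :=
  Complex.exp (2 * π * Complex.I * ((∑ i, l i * x i : ℝ) : ℂ))

theorem norm_ex (l x : Fin 2 → ℝ) : ‖ex l x‖ = 1 := by
  unfold ex
  have : (2 * π * Complex.I * ((∑ i, l i * x i : ℝ) : ℂ)) = ((2 * π * (∑ i, l i * x i) : ℝ) : ℂ) * Complex.I := by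
    push_cast; ring
  rw [this, Complex.norm_exp_ofReal_mul_I]

theorem continuous_ex (l : Fin 2 → ℝ) : Continuous (ex l) := by
  unfold ex
  fun_prop

theorem memLp_ex (l : Fin 2 → ℝ) : MemLp (ex l) 2 mu := by
  refine (memLp_congr_norm (continuous_ex l).aestronglyMeasurable
    (aestronglyMeasurable_const (b := (1:ℂ))) ?_).2 (memLp_const 1)
  exact Filter.Eventually.of_forall (fun x => by rw [norm_ex]; simp)

noncomputable def vec (l : Lam) : Lp ℂ 2 mu := (memLp_ex l).toLp _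

theorem vec_coe (l : Lam) : (vec l : (Fin 2 → ℝ) → ℂ) =ᵐ[mu] ex l := MemLp.coeFn_toLp _

theorem conj_ex (l x : Fin 2 → ℝ) : (starRingEnd ℂ) (ex l x) = Complex.exp (-(2 * π * Complex.I * ((∑ i, l i * x i : ℝ) : ℂ))) := by
  unfold ex
  rw [← Complex.exp_conj]
  congr 1
  simp
  exact Or.inl (map_ofNat (starRingEnd ℂ) 2)

theorem ex_mul_conj (l l' x : Fin 2 → ℝ) : ex l x * (starRingEnd ℂ) (ex l' x)
    = Complex.exp (2 * π * Complex.I * ((∑ i, (l i - l' i) * x i : ℝ) : ℂ)) := by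
  rw [conj_ex]
  unfold ex
  rw [← Complex.exp_add]
  congr 1
  simp only [sub_mul, Finset.sum_sub_distrib]
  push_cast; ring

theorem inner_vec (l : Lam) (f : Lp ℂ 2 mu) :
    inner ℂ (vec l) f = ∫ x, (f : (Fin 2 → ℝ) → ℂ) x * Complex.exp (-(2 * π * Complex.I * ((∑ i, (l : Fin 2 → ℝ) i * x i : ℝ) : ℂ))) ∂mu := by
  rw [L2.inner_def]
  refine integral_congr_ae ?_
  filter_upwards [vec_coe l] with x hx
  rw [hx, RCLike.inner_apply]
  have := conj_ex l x
  rw [← this]

theorem orthonormal_vec : Orthonormal ℂ vec := by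
  rw [orthonormal_iff_ite]
  intro l l'
  rw [inner_vec]
  have h : ∫ x, (vec l' : (Fin 2 → ℝ) → ℂ) x * Complex.exp (-(2 * π * Complex.I * ((∑ i, (l : Fin 2 → ℝ) i * x i : ℝ) : ℂ))) ∂mu
      = ∫ x, Complex.exp (2 * π * Complex.I * ((∑ i, ((l' : Fin 2 → ℝ) i - (l : Fin 2 → ℝ) i) * x i : ℝ) : ℂ)) ∂mu := by
    refine integral_congr_ae ?_
    filter_upwards [vec_coe l'] with x hx
    rw [hx, ← conj_ex, ex_mul_conj]
  rw [h]
  by_cases hl : l = l'
  · rw [if_pos hl]
    exact (orth l' l'.2 l l.2).1 (by rw [hl])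
  · rw [if_neg hl]
    refine (orth l' l'.2 l l.2).2 ?_
    intro h'
    exact hl (Subtype.ext h'.symm)

theorem span_bot : (Submodule.span ℂ (Set.range vec))ᗮ = ⊥ := by
  rw [Submodule.eq_bot_iff]
  intro f hf
  have h : ∀ l ∈ Lam, ∫ x, (f : (Fin 2 → ℝ) → ℂ) x * Complex.exp (-(2 * π * Complex.I * ((∑ i, l i * x i : ℝ) : ℂ))) ∂mu = 0 := by
    intro l hl
    have := inner_vec ⟨l, hl⟩ f
    rw [← this]
    exact (Submodule.mem_orthogonal _ _).1 hf _ (Submodule.subset_span ⟨⟨l, hl⟩, rfl⟩)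
  have h2 := complete (f : (Fin 2 → ℝ) → ℂ) (Lp.memLp f) h
  exact (Lp.eq_zero_iff_ae_eq_zero).2 h2

theorem countable_Lam : Lam.Countable := by
  have : Lam ⊆ (Set.range (fun n : ℤ => (![(n:ℝ), 0] : Fin 2 → ℝ))) ∪
      (Set.range (fun n : ℤ => (![(n:ℝ) + 1/4, 0] : Fin 2 → ℝ))) := by
    rintro l ⟨n, e, he | he, rfl⟩
    · left; exact ⟨n, by rw [he, add_zero]⟩
    · right; exact ⟨n, by rw [he]⟩
  exact ((Set.countable_range _).union (Set.countable_range _)).mono this

theorem spectral : IsSpectral mu := by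
  refine ⟨Lam, countable_Lam, HilbertBasis.mkOfOrthogonalEqBot orthonormal_vec span_bot, ?_⟩
  intro l
  rw [HilbertBasis.coe_mkOfOrthogonalEqBot]
  exact vec_coe l

/-! ### No Hadamard triple -/

theorem no_triple : ¬ ∃ L : Finset (Fin 2 → ℤ), IsHadamardTriple R B L := by
  rintro ⟨L, hL, h1, _⟩
  refine no_hadamard L hL ?_
  intro l hl l' hl' hne
  have h := congrFun (congrFun h1 ⟨l, hl⟩) ⟨l', hl'⟩
  rw [Matrix.one_apply_ne (by simpa [Subtype.ext_iff] using hne), Matrix.mul_apply] at h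
  simp only [Matrix.conjTranspose_apply] at h
  rw [← Finset.sum_coe_sort]
  have hterm : ∀ b : B, hadamardMatrix R B L ⟨l, hl⟩ b * star (hadamardMatrix R B L ⟨l', hl'⟩ b)
      = ((1 / 4 : ℝ) : ℂ) * Complex.exp (2 * π * Complex.I *
      ((∑ i, ((R.map (Int.cast : ℤ → ℝ))⁻¹ *ᵥ (fun j => (((b : Fin 2 → ℤ) j : ℤ) : ℝ))) i * ((l i : ℝ) - (l' i : ℝ)) : ℝ) : ℂ)) := by
    intro b
    unfold hadamardMatrix
    rw [star_mul', cardB]
    have hs : Real.sqrt ((4:ℕ):ℝ) = 2 := by
      rw [show ((4:ℕ):ℝ) = 2 ^ 2 by norm_num]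
      exact Real.sqrt_sq (by norm_num)
    rw [hs]
    have hstar : ∀ r : ℝ, star (Complex.exp (2 * π * Complex.I * (r : ℂ))) = Complex.exp (-(2 * π * Complex.I * (r : ℂ))) := by
      intro r
      rw [Complex.star_def, ← Complex.exp_conj]
      congr 1
      simp
      exact Or.inl (map_ofNat (starRingEnd ℂ) 2)
    rw [hstar]
    have hr : star (((1 / 2 : ℝ)) : ℂ) = (((1 / 2 : ℝ)) : ℂ) := by
      rw [Complex.star_def, Complex.conj_ofReal]
    rw [hr]
    have : ∀ a c d : ℂ, a * c * (a * d) = (a * a) * (c * d) := by intros; ring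
    rw [this, ← Complex.exp_add]
    congr 1
    · push_cast; norm_num
    · congr 1
      simp only [mul_sub, Finset.sum_sub_distrib]
      push_cast; ring
  simp only [hterm] at h
  rw [← Finset.mul_sum] at h
  exact (mul_eq_zero.1 h).resolve_left (by norm_num)

/-! ### The attractor -/

theorem g_bound (x : ℝ) (hx : x ∈ A) : |g x| ≤ 3 := by
  have hb : ∀ k : ℕ, ‖(1/3:ℝ)^(k+1) * (S^[k] x)‖ ≤ (1/3:ℝ)^(k+1) * 3 := by
    intro k
    rw [norm_mul, Real.norm_eq_abs, Real.norm_eq_abs, abs_of_pos (by positivity)]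
    refine mul_le_mul_of_nonneg_left ?_ (by positivity)
    cases k with
    | zero =>
      simp only [Function.iterate_zero, id_eq]
      rcases hx with hx | hx <;> rw [abs_of_nonneg (by linarith [hx.1])] <;> linarith [hx.2]
    | succ k =>
      rw [Function.iterate_succ_apply', abs_of_nonneg (S_nonneg _)]
      exact (S_lt _).le
  have hs : HasSum (fun k : ℕ => (1/3:ℝ)^(k+1) * 3) (3/2) := by
    have := (hasSum_geometric_of_lt_one (r := (1/3:ℝ)) (by norm_num) (by norm_num)).mul_left (1:ℝ)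
    have e : (fun k : ℕ => (1:ℝ) * (1/3)^k) = fun k : ℕ => (1/3:ℝ)^(k+1) * 3 := by
      funext k; rw [pow_succ]; ring
    have e2 : (1:ℝ) * (1 - 1/3)⁻¹ = 3/2 := by norm_num
    rw [e, e2] at this
    exact this
  have := tsum_of_norm_bounded hs hb
  unfold g
  rw [abs_neg]
  rw [Real.norm_eq_abs] at this
  linarith

/-- The attractor. -/
noncomputable def T : Set (Fin 2 → ℝ) := closure (G '' A)

theorem T_bounded : Bornology.IsBounded (G '' A) := by
  rw [isBounded_iff_forall_norm_le]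
  refine ⟨3, ?_⟩
  rintro _ ⟨x, hx, rfl⟩
  rw [pi_norm_le_iff_of_nonneg (by norm_num)]
  intro i
  fin_cases i
  · simp only [G]
    rcases hx with hx | hx <;> simp only [Fin.zero_eta, Matrix.cons_val_zero, Real.norm_eq_abs] <;>
      rw [abs_of_nonneg (by linarith [hx.1])] <;> linarith [hx.2]
  · simpa [G] using g_bound x hx

theorem T_compact : IsCompact T := T_bounded.isCompact_closure

theorem tau_mem (c x : ℝ) (hc : c ∈ [(0:ℝ), 1, 8, 9]) (hx : x ∈ A) : tau c x ∈ A := by
  rw [pieces]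
  have : 4 * tau c x - c = x := by unfold tau; ring
  simp only [List.mem_cons, List.not_mem_nil, or_false] at hc
  rcases hc with rfl | rfl | rfl | rfl
  · left; left; left; show 4 * tau 0 x - 0 ∈ A; rw [this]; exact hx
  · left; left; right; show 4 * tau 1 x - 1 ∈ A; rw [this]; exact hx
  · left; right; show 4 * tau 8 x - 8 ∈ A; rw [this]; exact hx
  · right; show 4 * tau 9 x - 9 ∈ A; rw [this]; exact hx

theorem GA_eq : G '' A = ((phi 0 '' (G '' A) ∪ phi 1 '' (G '' A)) ∪ phi 8 '' (G '' A)) ∪ phi 9 '' (G '' A) := by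
  have sub : ∀ c : ℝ, c ∈ [(0:ℝ), 1, 8, 9] → phi c '' (G '' A) ⊆ G '' A := by
    rintro c hc _ ⟨_, ⟨x, hx, rfl⟩, rfl⟩
    exact ⟨tau c x, tau_mem c x hc hx, (phi_G c x hc hx).symm⟩
  apply Set.Subset.antisymm
  · rintro _ ⟨x, hx, rfl⟩
    have key : ∀ c : ℝ, c ∈ [(0:ℝ), 1, 8, 9] → 4 * x - c ∈ A → G x ∈ phi c '' (G '' A) := by
      intro c hc hxc
      refine ⟨G (4 * x - c), ⟨_, hxc, rfl⟩, ?_⟩
      rw [phi_G c _ hc hxc]
      congr 1
      unfold tau; ring
    rw [pieces] at hx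
    rcases hx with ((hx | hx) | hx) | hx
    · left; left; left; exact key 0 (by simp) hx
    · left; left; right; exact key 1 (by simp) hx
    · left; right; exact key 8 (by simp) hx
    · right; exact key 9 (by simp) hx
  · exact Set.union_subset (Set.union_subset (Set.union_subset (sub 0 (by simp)) (sub 1 (by simp)))
      (sub 8 (by simp))) (sub 9 (by simp))

theorem continuous_phi (c : ℝ) : Continuous (phi c) := by
  unfold phi
  refine continuous_pi (fun i => ?_)
  fin_cases i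
  · simp only [Fin.zero_eta, Matrix.cons_val_zero]; fun_prop
  · simp only [Fin.mk_one, Matrix.cons_val_one, Matrix.cons_val_fin_one]; fun_prop

theorem closure_phi (c : ℝ) : closure (phi c '' (G '' A)) = phi c '' T := by
  unfold T
  apply Set.Subset.antisymm
  · refine closure_minimal (Set.image_mono subset_closure) ?_
    exact (T_compact.image (continuous_phi c)).isClosed
  · exact image_closure_subset_closure_image (continuous_phi c)

theorem T_eq : T = ((phi 0 '' T ∪ phi 1 '' T) ∪ phi 8 '' T) ∪ phi 9 '' T := by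
  conv_lhs => rw [T, GA_eq]
  rw [closure_union, closure_union, closure_union, closure_phi, closure_phi, closure_phi, closure_phi]

theorem ifs_eq (c : ℤ) : ifs R ![c, 0] = phi c := by
  funext x
  exact Rinv_mulVec x c

theorem attractor : IsAttractor R B T := by
  refine ⟨?_, T_compact, ?_⟩
  · exact ⟨G 0, subset_closure ⟨0, by left; constructor <;> norm_num, rfl⟩⟩
  · conv_lhs => rw [T_eq]
    unfold B
    simp only [Finset.mem_insert, Finset.mem_singleton, Set.iUnion_iUnion_eq_or_left,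
      Set.iUnion_iUnion_eq_left, ifs_eq]
    norm_num [Set.union_assoc]

theorem self_affine' : IsSelfAffineMeasure R B mu := ⟨inferInstance, self_affine⟩

/-! ### No overlap -/

theorem T_fst (v : Fin 2 → ℝ) (hv : v ∈ T) : v 0 ∈ Icc (0:ℝ) 1 ∪ Icc (2:ℝ) 3 := by
  have hc : IsClosed {v : Fin 2 → ℝ | v 0 ∈ Icc (0:ℝ) 1 ∪ Icc (2:ℝ) 3} :=
    (isClosed_Icc.union isClosed_Icc).preimage (continuous_apply 0)
  refine closure_minimal ?_ hc hv
  rintro _ ⟨x, hx, rfl⟩
  show x ∈ Icc (0:ℝ) 1 ∪ Icc (2:ℝ) 3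
  rcases hx with hx | hx
  · left; exact ⟨hx.1, hx.2.le⟩
  · right; exact ⟨hx.1, hx.2.le⟩

theorem overlap_fst (c c' : ℝ) (h : (c, c') ∈ [((0:ℝ), (1:ℝ)), (0, 8), (0, 9), (1, 8), (1, 9), (8, 9)])
    (v : Fin 2 → ℝ) (hv : v ∈ phi c '' T ∩ phi c' '' T) :
    v 0 ∈ ({1/4, 1/2, 3/4, 9/4, 5/2, 11/4} : Set ℝ) := by
  obtain ⟨⟨a, ha, rfl⟩, ⟨b, hb, hab⟩⟩ := hv
  have h0 := congrFun hab 0
  have ha' := T_fst a ha
  have hb' := T_fst b hb
  simp only [phi, Matrix.cons_val_zero] at h0 ⊢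
  simp only [List.mem_cons, Prod.mk.injEq, List.not_mem_nil, or_false] at h
  simp only [mem_insert_iff, mem_singleton_iff]
  rcases h with h | h | h | h | h | h <;> obtain ⟨rfl, rfl⟩ := h <;>
    rcases ha' with ha' | ha' <;> rcases hb' with hb' | hb' <;>
    first
      | (exfalso; linarith [ha'.1, ha'.2, hb'.1, hb'.2])
      | (left; linarith [ha'.1, ha'.2, hb'.1, hb'.2])
      | (right; left; linarith [ha'.1, ha'.2, hb'.1, hb'.2])
      | (right; right; left; linarith [ha'.1, ha'.2, hb'.1, hb'.2])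
      | (right; right; right; left; linarith [ha'.1, ha'.2, hb'.1, hb'.2])
      | (right; right; right; right; left; linarith [ha'.1, ha'.2, hb'.1, hb'.2])
      | (right; right; right; right; right; linarith [ha'.1, ha'.2, hb'.1, hb'.2])

theorem nu_finite (s : Set ℝ) (hs : s.Finite) : nu s = 0 := by
  unfold nu
  rw [Measure.smul_apply, Measure.restrict_apply hs.measurableSet]
  have : volume (s ∩ A) = 0 := measure_mono_null Set.inter_subset_left (hs.measure_zero volume)
  rw [this]; simp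

theorem mu_overlap (c c' : ℝ) (h : (c, c') ∈ [((0:ℝ), (1:ℝ)), (0, 8), (0, 9), (1, 8), (1, 9), (8, 9)]) :
    mu (phi c '' T ∩ phi c' '' T) = 0 := by
  have hfin : ({1/4, 1/2, 3/4, 9/4, 5/2, 11/4} : Set ℝ).Finite := by simp
  refine measure_mono_null (t := {v : Fin 2 → ℝ | v 0 ∈ ({1/4, 1/2, 3/4, 9/4, 5/2, 11/4} : Set ℝ)})
    (fun v hv => overlap_fst c c' h v hv) ?_
  unfold mu
  have hms : MeasurableSet {v : Fin 2 → ℝ | v 0 ∈ ({1/4, 1/2, 3/4, 9/4, 5/2, 11/4} : Set ℝ)} :=
    (measurable_pi_apply 0) hfin.measurableSet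
  rw [Measure.map_apply measurable_G hms]
  exact nu_finite _ hfin

theorem no_overlap : NoOverlap R B mu T := by
  intro b hb b' hb' hne
  simp only [B, Finset.mem_insert, Finset.mem_singleton] at hb hb'
  have comm : ∀ c c' : ℝ, mu (phi c '' T ∩ phi c' '' T) = 0 → mu (phi c' '' T ∩ phi c '' T) = 0 := by
    intro c c' h; rw [Set.inter_comm]; exact h
  have h01 := mu_overlap 0 1 (by simp)
  have h08 := mu_overlap 0 8 (by simp)
  have h09 := mu_overlap 0 9 (by simp)
  have h18 := mu_overlap 1 8 (by simp)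
  have h19 := mu_overlap 1 9 (by simp)
  have h89 := mu_overlap 8 9 (by simp)
  rcases hb with rfl | rfl | rfl | rfl <;> rcases hb' with rfl | rfl | rfl | rfl <;>
    first
      | exact absurd rfl hne
      | (rw [ifs_eq, ifs_eq]; norm_num; first | assumption | (apply comm; assumption))

/-! ### Singularity -/

theorem graph_null : volume {v : Fin 2 → ℝ | v 1 = g (v 0)} = 0 := by
  have hm : MeasurableSet {p : ℝ × ℝ | p.2 = g p.1} :=
    measurableSet_eq_fun measurable_snd (measurable_g.comp measurable_fst)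
  have h1 : (volume : Measure (ℝ × ℝ)) {p : ℝ × ℝ | p.2 = g p.1} = 0 := by
    rw [Measure.volume_eq_prod, Measure.measure_prod_null hm]
    refine Filter.Eventually.of_forall (fun x => ?_)
    have : (Prod.mk x ⁻¹' {p : ℝ × ℝ | p.2 = g p.1}) = {g x} := by
      ext y; simp
    show volume (Prod.mk x ⁻¹' {p : ℝ × ℝ | p.2 = g p.1}) = 0
    rw [this]
    simp
  have hp := (volume_preserving_finTwoArrow ℝ).measure_preimage hm.nullMeasurableSet
  rw [h1] at hp
  exact hp

theorem singular : mu ⟂ₘ volume := by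
  have hm : MeasurableSet {v : Fin 2 → ℝ | v 1 = g (v 0)} :=
    measurableSet_eq_fun (measurable_pi_apply 1) (measurable_g.comp (measurable_pi_apply 0))
  refine ⟨{v : Fin 2 → ℝ | v 1 = g (v 0)}ᶜ, hm.compl, ?_, ?_⟩
  · unfold mu
    rw [Measure.map_apply measurable_G hm.compl]
    convert measure_empty (μ := nu) using 2
    ext x
    simp [G]
  · rw [compl_compl]
    exact graph_null

end Pool.Agent.N239.Spec
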