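import Pool.Agent.N239.Spec.Base

set_option autoImplicit false
open MeasureTheory Set
open scoped ENNReal Real

namespace Pool.Agent.N239.Spec

/-- The one dimensional maps. -/
noncomputable def tau (c : ℝ) (x : ℝ) : ℝ := (x + c) / 4

theorem measurable_tau (c : ℝ) : Measurable (tau c) := by
  unfold tau
  fun_prop

theorem map_tau_volume (c : ℝ) : (volume : Measure ℝ).map (tau c) = (4:ℝ≥0∞) • volume := by
  have h1 : tau c = (fun x => (1/4:ℝ) * x) ∘ (fun x => x + c) := by
    funext x; simp [tau]; ring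
  rw [h1, ← Measure.map_map (by fun_prop) (by fun_prop), map_add_right_eq_self,
    Real.map_volume_mul_left (by norm_num)]
  norm_num

theorem map_tau_restrict (c : ℝ) :
    (volume.restrict A).map (tau c) = (4:ℝ≥0∞) • volume.restrict {y | 4 * y - c ∈ A} := by
  have hpre : tau c ⁻¹' {y | 4 * y - c ∈ A} = A := by
    ext x
    simp only [tau, mem_preimage, mem_setOf_eq]
    have : 4 * ((x + c) / 4) - c = x := by ring
    rw [this]
  have hm : MeasurableSet {y : ℝ | 4 * y - c ∈ A} :=
    (show Measurable (fun y : ℝ => 4 * y - c) by fun_prop) measurableSet_A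
  have := Measure.restrict_map (μ := (volume : Measure ℝ)) (measurable_tau c) hm
  rw [hpre] at this
  rw [← this, map_tau_volume, Measure.restrict_smul]

theorem measurableSet_pre (c : ℝ) : MeasurableSet {y : ℝ | 4 * y - c ∈ A} :=
    (show Measurable (fun y : ℝ => 4 * y - c) by fun_prop) measurableSet_A

theorem pieces : A = (({y : ℝ | 4 * y - 0 ∈ A} ∪ {y | 4 * y - 1 ∈ A}) ∪ {y | 4 * y - 8 ∈ A})
    ∪ {y | 4 * y - 9 ∈ A} := by
  ext x
  simp only [A, mem_union, mem_Ico, mem_setOf_eq]
  constructor
  · rintro (⟨h1, h2⟩ | ⟨h1, h2⟩)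
    · by_cases a1 : x < 1/4
      · left; left; left; left; constructor <;> linarith
      by_cases a2 : x < 1/2
      · left; left; right; left; constructor <;> linarith
      by_cases a3 : x < 3/4
      · left; left; left; right; constructor <;> linarith
      · left; left; right; right; constructor <;> linarith
    · by_cases a1 : x < 9/4
      · left; right; left; constructor <;> linarith
      by_cases a2 : x < 5/2
      · right; left; constructor <;> linarith
      by_cases a3 : x < 11/4
      · left; right; right; constructor <;> linarith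
      · right; right; constructor <;> linarith
  · rintro (((( ⟨h1, h2⟩ | ⟨h1, h2⟩) | ( ⟨h1, h2⟩ | ⟨h1, h2⟩)) | ( ⟨h1, h2⟩ | ⟨h1, h2⟩)) | ( ⟨h1, h2⟩ | ⟨h1, h2⟩))
    all_goals first
      | (left; constructor <;> linarith)
      | (right; constructor <;> linarith)

theorem disj (c c' : ℝ) (h : (c, c') ∈ [((0:ℝ), (1:ℝ)), (0, 8), (0, 9), (1, 8), (1, 9), (8, 9)]) :
    Disjoint {y : ℝ | 4 * y - c ∈ A} {y : ℝ | 4 * y - c' ∈ A} := by
  rw [Set.disjoint_left]
  intro x hx hx'
  simp only [A, mem_union, mem_Ico, mem_setOf_eq] at hx hx'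
  simp only [List.mem_cons, Prod.mk.injEq, List.not_mem_nil, or_false] at h
  rcases h with h | h | h | h | h | h <;> obtain ⟨rfl, rfl⟩ := h <;>
    rcases hx with hx | hx <;> rcases hx' with hx' | hx' <;> linarith [hx.1, hx.2, hx'.1, hx'.2]

theorem restrict_A : volume.restrict A = volume.restrict {y : ℝ | 4 * y - 0 ∈ A}
    + volume.restrict {y : ℝ | 4 * y - 1 ∈ A} + volume.restrict {y : ℝ | 4 * y - 8 ∈ A}
    + volume.restrict {y : ℝ | 4 * y - 9 ∈ A} := by
  conv_lhs => rw [pieces]
  rw [Measure.restrict_union _ (measurableSet_pre _), Measure.restrict_union _ (measurableSet_pre _),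
    Measure.restrict_union _ (measurableSet_pre _)]
  · exact disj 0 1 (by simp)
  · exact (disj 0 8 (by simp)).union_left (disj 1 8 (by simp))
  · exact ((disj 0 9 (by simp)).union_left (disj 1 9 (by simp))).union_left (disj 8 9 (by simp))

theorem nu_map (c : ℝ) : nu.map (tau c) = (2:ℝ≥0∞) • volume.restrict {y | 4 * y - c ∈ A} := by
  unfold nu
  rw [Measure.map_smul, map_tau_restrict, smul_smul]
  congr 1
  rw [show (4:ℝ≥0∞) = 2 * 2 by norm_num, ← mul_assoc, ENNReal.inv_mul_cancel (by norm_num) (by norm_num),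
    one_mul]

theorem nu_self : nu = (4:ℝ≥0∞)⁻¹ • (nu.map (tau 0) + nu.map (tau 1) + nu.map (tau 8) + nu.map (tau 9)) := by
  rw [nu_map, nu_map, nu_map, nu_map, ← smul_add, ← smul_add, ← smul_add, ← restrict_A, smul_smul]
  unfold nu
  congr 1
  rw [show (4:ℝ≥0∞) = 2 * 2 by norm_num, ENNReal.mul_inv (by norm_num) (by norm_num), mul_assoc,
    ENNReal.inv_mul_cancel (by norm_num) (by norm_num), mul_one]

/-- The inverse branch property. -/
theorem S_tau (c x : ℝ) (hc : c ∈ [(0:ℝ), 1, 8, 9]) (hx : x ∈ A) : S (tau c x) = x := by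
  simp only [List.mem_cons, List.not_mem_nil, or_false] at hc
  -- the integer and fractional parts
  have key : ∀ (n m : ℤ) (u : ℝ), 0 ≤ u → u < 1 → tau c x = n + u →
      ∀ v : ℝ, 0 ≤ v → v < 1 → 4 * u = m + v → S (tau c x) = v + (if u < 1/2 then 0 else 2) := by
    intro n m u hu0 hu1 hnu v hv0 hv1 huv
    have h1 : Int.fract (tau c x) = u := by
      rw [hnu, Int.fract_intCast_add]
      exact Int.fract_eq_self.mpr ⟨hu0, hu1⟩
    have h2 : Int.fract (4 * u) = v := by
      rw [huv, Int.fract_intCast_add]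
      exact Int.fract_eq_self.mpr ⟨hv0, hv1⟩
    unfold S
    rw [h1, h2]
  rcases hx with hx | hx
  · rcases hc with rfl | rfl | rfl | rfl
    · rw [key 0 0 (x/4) (by linarith [hx.1]) (by linarith [hx.2]) (by simp [tau]) x hx.1 hx.2
        (by push_cast; ring), if_pos (by linarith [hx.2])]
      ring
    · rw [key 0 1 ((x+1)/4) (by linarith [hx.1]) (by linarith [hx.2]) (by simp [tau]) x hx.1 hx.2
        (by push_cast; ring), if_pos (by linarith [hx.2])]
      ring
    · rw [key 2 0 (x/4) (by linarith [hx.1]) (by linarith [hx.2]) (by simp [tau]; ring) x hx.1 hx.2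
        (by push_cast; ring), if_pos (by linarith [hx.2])]
      ring
    · rw [key 2 1 ((x+1)/4) (by linarith [hx.1]) (by linarith [hx.2]) (by simp [tau]; ring) x hx.1 hx.2
        (by push_cast; ring), if_pos (by linarith [hx.2])]
      ring
  · have e1 : 0 ≤ x - 2 := by linarith [hx.1]
    have e2 : x - 2 < 1 := by linarith [hx.2]
    rcases hc with rfl | rfl | rfl | rfl
    · rw [key 0 2 (x/4) (by linarith [hx.1]) (by linarith [hx.2]) (by simp [tau]) (x-2) e1 e2
        (by push_cast; ring), if_neg (by linarith [hx.1])]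
      ring
    · rw [key 0 3 ((x+1)/4) (by linarith [hx.1]) (by linarith [hx.2]) (by simp [tau]) (x-2) e1 e2
        (by push_cast; ring), if_neg (by linarith [hx.1])]
      ring
    · rw [key 2 2 (x/4) (by linarith [hx.1]) (by linarith [hx.2]) (by simp [tau]; ring) (x-2) e1 e2
        (by push_cast; ring), if_neg (by linarith [hx.1])]
      ring
    · rw [key 2 3 ((x+1)/4) (by linarith [hx.1]) (by linarith [hx.2]) (by simp [tau]; ring) (x-2) e1 e2
        (by push_cast; ring), if_neg (by linarith [hx.1])]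
      ring

/-- The two dimensional maps written out. -/
noncomputable def phi (c : ℝ) (v : Fin 2 → ℝ) : Fin 2 → ℝ := ![(v 0 + c) / 4, (v 1 - (v 0 + c) / 4) / 3]

theorem measurable_phi (c : ℝ) : Measurable (phi c) := by
  rw [measurable_pi_iff]
  intro i
  fin_cases i
  · simp only [phi]; fun_prop
  · simp only [phi]; fun_prop

theorem phi_G (c x : ℝ) (hc : c ∈ [(0:ℝ), 1, 8, 9]) (hx : x ∈ A) : phi c (G x) = G (tau c x) := by
  unfold phi G
  rw [g_eq (tau c x), S_tau c x hc hx]
  simp [tau]

theorem map_phi (c : ℝ) (hc : c ∈ [(0:ℝ), 1, 8, 9]) : mu.map (phi c) = (nu.map (tau c)).map G := by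
  unfold mu
  rw [Measure.map_map (measurable_phi c) measurable_G, Measure.map_map measurable_G (measurable_tau c)]
  refine Measure.map_congr ?_
  filter_upwards [ae_mem_A] with x hx
  exact phi_G c x hc hx

theorem mu_self : mu = (4:ℝ≥0∞)⁻¹ • (mu.map (phi 0) + mu.map (phi 1) + mu.map (phi 8) + mu.map (phi 9)) := by
  rw [map_phi 0 (by simp), map_phi 1 (by simp), map_phi 8 (by simp), map_phi 9 (by simp),
    ← Measure.map_add _ _ measurable_G, ← Measure.map_add _ _ measurable_G,
    ← Measure.map_add _ _ measurable_G, ← Measure.map_smul, ← nu_self]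
  rfl

end Pool.Agent.N239.Spec
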