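import Pool.Agent.N239.Spec.Basis
import Pool.Agent.N239.Spec.Self

set_option autoImplicit false
open MeasureTheory Set Matrix
open scoped ENNReal Real

namespace Pool.Agent.N239.Spec

theorem integral_ch_int (m : ℤ) (hm : m ≠ 0) : ∫ x in (0:ℝ)..1, ch m x = 0 := by
  have hc : (-(2 * π * Complex.I * m) : ℂ) ≠ 0 := by
    have : (m : ℂ) ≠ 0 := by exact_mod_cast hm
    have := Complex.two_pi_I_ne_zero
    simp_all
  have h := integral_exp_mul_complex (a := (0:ℝ)) (b := (1:ℝ)) hc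
  have h2 : ∀ x : ℝ, ch m x = Complex.exp ((-(2 * π * Complex.I * m) : ℂ) * x) := by
    intro x
    unfold ch
    congr 1
    push_cast; ring
  simp only [h2]
  rw [h]
  have h3 : Complex.exp ((-(2 * π * Complex.I * m) : ℂ) * ((1:ℝ) : ℂ)) = 1 := by
    rw [Complex.exp_eq_one_iff]
    exact ⟨-m, by push_cast; ring⟩
  rw [h3]
  simp

theorem integrable_ch (t : ℝ) : Integrable (ch t) nu := by
  refine (memLp_mul_ch nu t (fun _ => (1:ℂ)) (memLp_const 1)).integrable (by norm_num) |>.congr ?_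
  exact Filter.Eventually.of_forall (fun x => by simp)

theorem integral_ch_nu (t : ℝ) : ∫ x, ch t x ∂nu = (1/2:ℂ) * ((1 + ch t 2) * ∫ x in (0:ℝ)..1, ch t x) := by
  rw [integral_nu _ (integrable_ch t)]
  simp only [ch_add_right]
  rw [intervalIntegral.integral_mul_const]
  ring

theorem ch_neg_two (t x : ℝ) : ch (-t) x * ch t x = 1 := by
  rw [← ch_add]
  unfold ch
  simp

theorem ch_quarter_two' : ch (-(1/4)) 2 = -1 := by
  have h := ch_neg_two (1/4) 2
  rw [ch_quarter_two] at h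
  linear_combination -h

theorem orth_line (n n' : ℤ) (e e' : ℝ) (he : e = 0 ∨ e = 1/4) (he' : e' = 0 ∨ e' = 1/4)
    (h : ((n:ℝ) + e) ≠ n' + e') : ∫ x, ch (-((n + e) - (n' + e'))) x ∂nu = 0 := by
  rw [integral_ch_nu]
  by_cases hee : e = e'
  · subst hee
    have hn : n' - n ≠ 0 := by
      intro h0
      have : n = n' := by omega
      exact h (by rw [this])
    have : (-((n + e) - (n' + e)) : ℝ) = ((n' - n : ℤ) : ℝ) := by push_cast; ring
    rw [this, integral_ch_int _ hn]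
    ring
  · have : ch (-((n + e) - (n' + e'))) 2 = -1 := by
      have e1 : (-((n + e) - (n' + e')) : ℝ) = ((n' - n : ℤ) : ℝ) + (e' - e) := by push_cast; ring
      rw [e1, ch_add, ch_int_two]
      rcases he with rfl | rfl <;> rcases he' with rfl | rfl
      · exact absurd rfl hee
      · rw [sub_zero, ch_quarter_two]; ring
      · rw [zero_sub, ch_quarter_two']; ring
      · exact absurd rfl hee
    rw [this]
    ring

theorem orth : ∀ l ∈ Lam, ∀ l' ∈ Lam,
    (l = l' → ∫ x, Complex.exp (2 * π * Complex.I * ((∑ i, (l i - l' i) * x i : ℝ) : ℂ)) ∂mu = 1) ∧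
    (l ≠ l' → ∫ x, Complex.exp (2 * π * Complex.I * ((∑ i, (l i - l' i) * x i : ℝ) : ℂ)) ∂mu = 0) := by
  intro l hl l' hl'
  constructor
  · rintro rfl
    simp
  · intro hne
    obtain ⟨n, e, he, rfl⟩ := hl
    obtain ⟨n', e', he', rfl⟩ := hl'
    have hne' : ((n:ℝ) + e) ≠ n' + e' := by
      intro h; exact hne (by rw [h])
    rw [← orth_line n n' e e' he he' hne']
    unfold mu
    rw [integral_map measurable_G.aemeasurable]
    · refine integral_congr_ae (Filter.Eventually.of_forall (fun x => ?_))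
      simp [G, ch]
      congr 1
      ring
    · exact Continuous.aestronglyMeasurable (by fun_prop)

/-- the matrix -/
def R : Matrix (Fin 2) (Fin 2) ℤ := !![4, 0; 1, 3]

/-- the digits -/
def B : Finset (Fin 2 → ℤ) := {![0, 0], ![1, 0], ![8, 0], ![9, 0]}

theorem cardB : B.card = 4 := by decide

theorem zero_mem : (0 : Fin 2 → ℤ) ∈ B := by decide

theorem detR : R.det = 12 := by decide

theorem expanding : ∀ z : ℂ, (R.map (Int.cast : ℤ → ℂ)).charpoly.IsRoot z → 1 < ‖z‖ := by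
  intro z hz
  have ht : (R.map (Int.cast : ℤ → ℂ)).trace = 4 + 3 := by
    simp [R, Matrix.trace, Fin.sum_univ_two]
  have hd : (R.map (Int.cast : ℤ → ℂ)).det = 4 * 3 := by
    simp [R, Matrix.det_fin_two]
  have h1 : (R.map (Int.cast : ℤ → ℂ)).charpoly = (Polynomial.X - Polynomial.C 4) * (Polynomial.X - Polynomial.C 3) := by
    rw [Matrix.charpoly_fin_two, ht, hd, Polynomial.C_add, Polynomial.C_mul]
    ring
  rw [h1, Polynomial.IsRoot, Polynomial.eval_mul, mul_eq_zero] at hz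
  simp only [Polynomial.eval_sub, Polynomial.eval_X, Polynomial.eval_C, sub_eq_zero] at hz
  rcases hz with rfl | rfl <;> norm_num

theorem simple : ∀ b ∈ B, ∀ b' ∈ B, b ≠ b' → ¬ ∃ v : Fin 2 → ℤ, R *ᵥ v = b - b' := by
  intro b hb b' hb' hne
  rintro ⟨v, hv⟩
  have h0 := congrFun hv 0
  have h1 := congrFun hv 1
  simp only [B, Finset.mem_insert, Finset.mem_singleton] at hb hb'
  simp [R, Matrix.mulVec, dotProduct, Fin.sum_univ_two] at h0 h1
  rcases hb with rfl | rfl | rfl | rfl <;> rcases hb' with rfl | rfl | rfl | rfl <;>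
    first
      | exact absurd rfl hne
      | (simp at h0 h1; omega)

theorem generates : AddSubgroup.closure {v : Fin 2 → ℤ | ∃ k : ℕ, ∃ b ∈ B, v = (R ^ k) *ᵥ b} = ⊤ := by
  rw [eq_top_iff]
  intro v _
  have h1 : (![1, 0] : Fin 2 → ℤ) ∈ AddSubgroup.closure {v : Fin 2 → ℤ | ∃ k : ℕ, ∃ b ∈ B, v = (R ^ k) *ᵥ b} :=
    AddSubgroup.subset_closure ⟨0, ![1, 0], by simp [B], by simp⟩
  have h2 : (![4, 1] : Fin 2 → ℤ) ∈ AddSubgroup.closure {v : Fin 2 → ℤ | ∃ k : ℕ, ∃ b ∈ B, v = (R ^ k) *ᵥ b} := by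
    refine AddSubgroup.subset_closure ⟨1, ![1, 0], by simp [B], ?_⟩
    rw [pow_one]
    ext i
    fin_cases i <;> simp [R, Matrix.mulVec, dotProduct, Fin.sum_univ_two]
  have hv : v = (v 0 - 4 * v 1) • (![1, 0] : Fin 2 → ℤ) + (v 1) • (![4, 1] : Fin 2 → ℤ) := by
    ext i
    fin_cases i
    · simp; ring
    · simp
  rw [hv]
  exact AddSubgroup.add_mem _ (AddSubgroup.zsmul_mem _ h1 _) (AddSubgroup.zsmul_mem _ h2 _)

theorem Rinv : (R.map (Int.cast : ℤ → ℝ))⁻¹ = !![1/4, 0; -1/12, 1/3] := by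
  refine Matrix.inv_eq_right_inv ?_
  ext i j
  fin_cases i <;> fin_cases j <;> simp [R, Matrix.mul_apply, Fin.sum_univ_two] <;> norm_num

theorem Rinv_mulVec (x : Fin 2 → ℝ) (c : ℤ) :
    (R.map (Int.cast : ℤ → ℝ))⁻¹ *ᵥ (x + fun i => (((![c, 0] : Fin 2 → ℤ) i : ℤ) : ℝ)) = phi c x := by
  rw [Rinv]
  ext i
  fin_cases i
  · simp [phi, Matrix.mulVec, dotProduct, Fin.sum_univ_two]; ring
  · simp [phi, Matrix.mulVec, dotProduct, Fin.sum_univ_two]; ring

theorem self_affine : mu = ((B.card : ℝ≥0∞)⁻¹) • ∑ b ∈ B,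
    mu.map (fun x => (R.map (Int.cast : ℤ → ℝ))⁻¹ *ᵥ (x + fun i => (b i : ℝ))) := by
  rw [cardB]
  have h : ∑ b ∈ B, mu.map (fun x => (R.map (Int.cast : ℤ → ℝ))⁻¹ *ᵥ (x + fun i => (b i : ℝ)))
      = mu.map (phi 0) + mu.map (phi 1) + mu.map (phi 8) + mu.map (phi 9) := by
    unfold B
    rw [Finset.sum_insert (by decide), Finset.sum_insert (by decide), Finset.sum_insert (by decide),
      Finset.sum_singleton]
    simp only [Rinv_mulVec]
    rw [← add_assoc, ← add_assoc]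
    norm_num
  rw [h]
  exact mu_self

/-- the character sum of the digit set -/
theorem char_sum (l l' : Fin 2 → ℤ) :
    ∑ b ∈ B, Complex.exp (2 * π * Complex.I *
      ((∑ i, ((R.map (Int.cast : ℤ → ℝ))⁻¹ *ᵥ (fun j => (b j : ℝ))) i * ((l i : ℝ) - (l' i : ℝ)) : ℝ) : ℂ))
    = (1 + Complex.exp (2 * π * Complex.I * ((3 * (l 0 - l' 0) - (l 1 - l' 1) : ℤ) : ℂ) / 12))
      * (1 + Complex.exp (2 * π * Complex.I * ((3 * (l 0 - l' 0) - (l 1 - l' 1) : ℤ) : ℂ) / 12) ^ 8) := by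
  have h : ∀ c : ℤ, Complex.exp (2 * π * Complex.I *
      ((∑ i, ((R.map (Int.cast : ℤ → ℝ))⁻¹ *ᵥ (fun j => (((![c, 0] : Fin 2 → ℤ) j : ℤ) : ℝ))) i * ((l i : ℝ) - (l' i : ℝ)) : ℝ) : ℂ))
      = Complex.exp (c * (2 * π * Complex.I * ((3 * (l 0 - l' 0) - (l 1 - l' 1) : ℤ) : ℂ) / 12)) := by
    intro c
    rw [Rinv]
    congr 1
    simp [Matrix.mulVec, dotProduct, Fin.sum_univ_two]
    ring
  unfold B
  rw [Finset.sum_insert (by decide), Finset.sum_insert (by decide), Finset.sum_insert (by decide),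
    Finset.sum_singleton, h 0, h 1, h 8, h 9]
  rw [← Complex.exp_nat_mul]
  have e9 : Complex.exp ((9:ℤ) * (2 * π * Complex.I * ((3 * (l 0 - l' 0) - (l 1 - l' 1) : ℤ) : ℂ) / 12))
    = Complex.exp (2 * π * Complex.I * ((3 * (l 0 - l' 0) - (l 1 - l' 1) : ℤ) : ℂ) / 12) *
      Complex.exp (((8:ℕ):ℂ) * (2 * π * Complex.I * ((3 * (l 0 - l' 0) - (l 1 - l' 1) : ℤ) : ℂ) / 12)) := by
    rw [← Complex.exp_add]; congr 1; push_cast; ring
  rw [e9]
  simp only [Int.cast_zero, zero_mul, Complex.exp_zero, Int.cast_one, one_mul]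
  push_cast
  ring

theorem exp_root (m : ℤ) (h : (1 + Complex.exp (2 * π * Complex.I * (m : ℂ) / 12))
      * (1 + Complex.exp (2 * π * Complex.I * (m : ℂ) / 12) ^ 8) = 0) :
    Complex.exp (2 * π * Complex.I * (m : ℂ) / 12) = -1 := by
  rcases mul_eq_zero.1 h with h | h
  · linear_combination h
  · exfalso
    set z := Complex.exp (2 * π * Complex.I * (m : ℂ) / 12) with hz
    have h12 : z ^ 12 = 1 := by
      rw [hz, ← Complex.exp_nat_mul, Complex.exp_eq_one_iff]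
      exact ⟨m, by push_cast; ring⟩
    have h8 : z ^ 8 = -1 := by linear_combination h
    have h24 : z ^ 24 = -1 := by
      have : z ^ 24 = (z ^ 8) ^ 3 := by ring
      rw [this, h8]; norm_num
    have h24' : z ^ 24 = 1 := by
      have : z ^ 24 = (z ^ 12) ^ 2 := by ring
      rw [this, h12]; norm_num
    rw [h24] at h24'
    norm_num at h24'

theorem no_hadamard (L : Finset (Fin 2 → ℤ)) (hL : L.card = B.card)
    (h : ∀ l ∈ L, ∀ l' ∈ L, l ≠ l' → ∑ b ∈ B, Complex.exp (2 * π * Complex.I *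
      ((∑ i, ((R.map (Int.cast : ℤ → ℝ))⁻¹ *ᵥ (fun j => (b j : ℝ))) i * ((l i : ℝ) - (l' i : ℝ)) : ℝ) : ℂ)) = 0) :
    False := by
  rw [cardB] at hL
  have h2 : 2 < L.card := by omega
  obtain ⟨a, b, c, ha, hb, hc, hab, hac, hbc⟩ := Finset.two_lt_card_iff.1 h2
  have k1 := h a ha b hb hab
  have k2 := h b hb c hc hbc
  have k3 := h a ha c hc hac
  rw [char_sum] at k1 k2 k3
  have r1 := exp_root _ k1
  have r2 := exp_root _ k2
  have r3 := exp_root _ k3
  have : Complex.exp (2 * π * Complex.I * ((3 * (a 0 - c 0) - (a 1 - c 1) : ℤ) : ℂ) / 12)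
     = Complex.exp (2 * π * Complex.I * ((3 * (a 0 - b 0) - (a 1 - b 1) : ℤ) : ℂ) / 12) *
       Complex.exp (2 * π * Complex.I * ((3 * (b 0 - c 0) - (b 1 - c 1) : ℤ) : ℂ) / 12) := by
    rw [← Complex.exp_add]; congr 1; push_cast; ring
  rw [r1, r2, r3] at this
  norm_num at this

end Pool.Agent.N239.Spec
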